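import Pool.Agent.H46.RF.Defs

/-!
Crew RF, block II of `MP_9214e0_lc` (random forcing over a countable transitive model `M` of ZF).
GOAL: `S_BRF`. Every part is `def S_XXX : Prop` with a paper proof in the comment; a prover writes
`Pool/Agent/<Seat>/RF/XXX.lean` with `theorem xxx (h1 : S_A) (h2 : S_B) ... : H46.RF.S_XXX`.

TOOLS for the set ... is in `M` (namespace `Pool.Agent.W868`, files `Dfn`, `Tool`, `Im`, `Rec`):
`Dfn M M (fun w : Fin n → ZFSet => ...)` definable relations, `DfnF M M (fun w => ...)` definable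
operations; closure lemmas `Dfn.and/or/not/imp/iff/ex/all/eq/mem/tail/congr/spec`, `hM.base.bex`,
`hM.base.ball` (bounded quantifiers), `hM.base.pair'`, `subset'`, `sUnion'`, `union'`, `insert'`,
`isFunc'`, `isInj'`, `DfnF.proj`, `DfnF.const`, `DfnF.ite`, `DfnF.of_unique`, `IsZF.sep'`, `IsZF.im'`,
`IsZF.prod'`; sets: `hM.sep_mem`, `hM.rel_mem`, `hM.image_mem`, `hM.exists_pow`, `hM.prod_mem`,
`hM.pair_mem`, `hM.insert_mem`, `hM.nat_mem`, `hM.empty_mem`, `mem_omega_iff`, `nat_injective`,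
`of_pair_mem`; recursion: `IsZF.wfrec`, `IsZF.memrec` (`Rec`). See `dfn_approx` in `Rec.lean` and
`isFunc'` in `Tool.lean` for the `repeat' first | ...` block that proves definability goals: write
the relation with quantifiers bounded by elements of `M` (or `∃ a ∈ M`), then run the block.
-/

set_option autoImplicit false

namespace H46.RF

open ZFSet (pair)
open Pool.Agent.W868
open MeasureTheory H14.ES

/-- WRD (150 lines). The words are in `M`. `ini r n ∈ M`: induction with `insert_mem`. `ini r n` is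
the function with domain `nat n` and values `bz (r k)`. The set `Wd` of all words: the `z` in the
power set (in `M`) of `ω × {0, 1}` such that `∃ n ∈ ω, IsFunc n {nat 0, nat 1} z` (conversely put
`r k = decide (pair (nat k) (nat 1) ∈ z)`). The relation `Ln` `z` is a word of length `n`:
`rel_mem` with `IsFunc n {nat 0, nat 1} z`. -/
def S_WRD : Prop :=
  (∀ r n k y, pair (nat k) y ∈ ini r n ↔ k < n ∧ y = bz (r k)) ∧
  (∀ r n z, z ∈ ini r n → ∃ k, k < n ∧ z = pair (nat k) (bz (r k))) ∧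
  (∀ r r' n n', ini r n = ini r' n' ↔ n = n' ∧ ∀ i < n, r i = r' i) ∧
  (∀ r r' n n', ini r n ⊆ ini r' n' ↔ n ≤ n' ∧ ∀ i < n, r i = r' i) ∧
  Function.Injective bz ∧
  ∀ M : Set ZFSet.{0}, IsZF M → (∀ r n, ini r n ∈ M) ∧ (∀ b, bz b ∈ M) ∧
    (∃ Wd ∈ M, ∀ z, z ∈ Wd ↔ ∃ r n, z = ini r n) ∧
    (∃ Ln ∈ M, ∀ z, z ∈ Ln ↔ ∃ r n, z = pair (ini r n) (nat n))

/-- PR1 (120 lines). `M` is closed under primitive recursion. For `F m n = n.rec (b m) (s m)`:
`v = F m n` iff for all `t ∈ M` with `pair 0 (b m) ∈ t` and (for all `y ∈ nat n` and all `v'` with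
`pair y v' ∈ t`: `pair (y ∪ {y}) (s m y v') ∈ t`) we have `pair (nat n) v ∈ t` (for `←` take the
finite set `t = {pair k (F m k) | k ≤ n} ∈ M`). Written with the graphs of `b` and `s` this is a
definable property of `m`, `n`, `v ∈ ω`, so the graph of `F` is in `M` by separation from
`(ω × ω) × ω`. -/
def S_PR1 : Prop := ∀ M : Set ZFSet.{0}, IsZF M → ∀ (b : ℕ → ℕ) (s : ℕ → ℕ → ℕ → ℕ),
  GrIn M b → Gr3 M s → Gr2 M fun m n => Nat.rec (b m) (fun y ih => s m y ih) n

/-- PR2 (100 lines, from PR1). The graph of `Nat.pair` is in `M`: addition by PR1 from successor,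
multiplication by PR1 from addition, and `Nat.pair a b = if a < b then b * b + a else a * a + a + b`,
where `a < b ↔ nat a ∈ nat b`: definable over `(ω × ω) × ω`. -/
def S_PR2 : Prop := ∀ M : Set ZFSet.{0}, IsZF M → Gr2 M Nat.pair

/-- PR3 (130 lines, from PR1, PR2). Induction on `Nat.Primrec f`: `zero`, `succ`; `left`, `right`
(`a = n.unpair.1 ↔ ∃ b ∈ ω, ((a, b), n) ∈` graph of `Nat.pair`); `pair`, `comp` (definable from
the graphs); `prec`: PR1 with `b = f` and `s m y ih = g (Nat.pair m (Nat.pair y ih))`, then compose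
with the unpairing. -/
def S_PR3 : Prop := ∀ M : Set ZFSet.{0}, IsZF M → ∀ f : ℕ → ℕ, Nat.Primrec f → GrIn M f

/-- TRN (120 lines). Translation of names. `π x = {pair (π y) (h p) | pair y p ∈ x}` is a definable
operation of `M` (`IsZF.wfrec` with `pr x = ⋃ ⋃ x`, which contains `y` if `pair y p ∈ x`;
`u ∈ ⋃ ⋃ z → rank u < rank z`; `G z g = {pair v (h p) | pair y p ∈ z, pair y v ∈ g}`, by `sep'`/`im'`,
e.g. the image under `t ↦ pair (sn (fs t)) (h (sn (sn t)))` ... of a definable set). Then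
`ev G (π x) = ev G' x` for `x ∈ M` by induction on the rank. -/
def S_TRN : Prop := ∀ M : Set ZFSet.{0}, IsZF M → ∀ h : ZFSet.{0} → ZFSet.{0},
  DfnF M M (fun w : Fin 1 → ZFSet.{0} => h (w 0)) →
  ∀ G G' : Set ZFSet.{0}, (∀ p ∈ M, p ∈ G' ↔ h p ∈ G) → ext M G' ⊆ ext M G

/-- PRA (50 lines). The preimage of a tree under `itm c u v` is a tree: `ini r n ∈ H` iff all
`ini (itm c u v r) k` which are determined by `r` below `n` are in `T`. (For each `k` there is `n`
above all `c j`, `u j`, `v j`, `j < k`.) `down`: clear, with `ini` injective (WRD). Note `H` is well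
defined because `ini (itm c u v r) k` depends only on `ini r n`. -/
def S_PRA : Prop := ∀ (c u v : ℕ → ℕ) (T H : ZFSet.{0}), IsTree T →
  (∀ z, z ∈ H ↔ ∃ r n, z = ini r n ∧
    ∀ k, (∀ j < k, c j < n ∧ u j < n ∧ v j < n) → ini (itm c u v r) k ∈ T) →
  IsTree H ∧ body H = itm c u v ⁻¹' body T

/-- PRB (180 lines, from WRD). The operation `T ↦ H` of PRA (and `T ↦ ∅` if `T` is not a tree) is
definable in `M`: `h T = {z ∈ Wd | T is a tree ∧ ∀ k ∈ ω, ∀ y ∈ Wd, y = the value of z below k →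
y ∈ T}` where `T` is a tree is `T ⊆ Wd ∧ ∀ z ∈ T, ∀ z' ∈ Wd, z' ⊆ z → z' ∈ T` and `y` = the value
of `z` below `k` is: `(y, k) ∈ Ln` and for all `j ∈ k` there are `a b d ∈ ω` with `(j, a) ∈ gc`,
`(j, b) ∈ gu`, `(j, d) ∈ gv`, `a`, `b`, `d` in the domain of `z`, and for `e = nat 0, nat 1`:
`(a, 1) ∈ z → ((j, e) ∈ y ↔ (b, e) ∈ z)` and `(a, 0) ∈ z → ((j, e) ∈ y ↔ (d, e) ∈ z)`. Use
`IsZF.sep'`. -/
def S_PRB : Prop := ∀ M : Set ZFSet.{0}, IsZF M → ∀ c u v : ℕ → ℕ, GrIn M c → GrIn M u → GrIn M v →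
  ∃ h : ZFSet.{0} → ZFSet.{0}, DfnF M M (fun w : Fin 1 → ZFSet.{0} => h (w 0)) ∧
    ∀ T ∈ M, ∀ z, z ∈ h T ↔ IsTree T ∧ ∃ r n, z = ini r n ∧
      ∀ k, (∀ j < k, c j < n ∧ u j < n ∧ v j < n) → ini (itm c u v r) k ∈ T

/-- BMS (25 lines). The body of a set is measurable (`{r | ini r n ∈ T}` depends only on
`r 0, ..., r (n - 1)`), decreasing levels, and the body is the intersection of the levels. -/
def S_BMS : Prop := (∀ T m, MeasurableSet (lev T m)) ∧ (∀ T, MeasurableSet (body T)) ∧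
  (∀ T, body T = ⋂ m, lev T m) ∧ (∀ T, IsTree T → ∀ m n, m ≤ n → lev T n ⊆ lev T m) ∧
  (∀ T m r r', (∀ i < m, r i = r' i) → (r ∈ lev T m ↔ r' ∈ lev T m)) ∧
  (∀ r k, MeasurableSet (cyl r k)) ∧ ∀ r k, mu ℕ (cyl r k) = (2 ^ k)⁻¹

/-- PRE (40 lines, from PRA, PRB, BMS): if `T ∈ M` is a tree then `mu (body (h T)) = mu (body T)` and
`r ∈ body (h T) ↔ itm c u v r ∈ body T`; if it is not a tree, `h T = ∅` has empty body. -/
def S_PRE : Prop := ∀ M : Set ZFSet.{0}, IsZF M → ∀ c u v : ℕ → ℕ, GrIn M c → GrIn M u → GrIn M v →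
  MeasurePreserving (itm c u v) (mu ℕ) (mu ℕ) →
  ∃ h : ZFSet.{0} → ZFSet.{0}, DfnF M M (fun w : Fin 1 → ZFSet.{0} => h (w 0)) ∧
    ∀ T ∈ M, ∀ r, T ∈ Th M (itm c u v r) ↔ h T ∈ Th M r

/-- EQV (50 lines, from PR3, TRN, PRE). `⊆`: TRN with `G' = Th M (w r)`, `G = Th M r`. `⊇`: the same
for the inverse, at the point `w r` (the inverse is measurable and measure preserving). -/
def S_EQV : Prop := ∀ M : Set ZFSet.{0}, IsZF M → ∀ w, IteAut w →
  ∀ r, ext M (Th M (w r)) = ext M (Th M r)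

/-- CHK (70 lines). Check names: `h x = {pair (h y) p | y ∈ x}` by `IsZF.memrec`;
`ev G (h x) = x` by induction. -/
def S_CHK : Prop := ∀ M : Set ZFSet.{0}, IsZF M → ∀ p ∈ M,
  ∃ h : ZFSet.{0} → ZFSet.{0}, DfnF M M (fun w : Fin 1 → ZFSet.{0} => h (w 0)) ∧
    ∀ G : Set ZFSet.{0}, p ∈ G → ∀ x ∈ M, ev G (h x) = x

/-- REA (100 lines, from WRD, CHK, BMS). The real is in the extension: let `p = Wd` (its body is
everything) and `S_i = {z ∈ Wd | (i, 0) ∉ z}`, a tree with the body `{x | x i = true}` of measure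
`1/2`. The name `{pair (h i) (S_i) | i ∈ ω}` is in `M` (`image_mem`; `i ↦ S_i` is `DfnF` by `sep'`).
Its value by `Th M r` is `{nat i | r i = true}`. -/
def S_REA : Prop := ∀ M : Set ZFSet.{0}, IsZF M → ∀ r, ∃ z ∈ ext M (Th M r),
  ∀ i, nat i ∈ z ↔ r i = true

/-- CNT (30 lines, from REA). If the set is nonempty, `N` is countable, and `r` is determined by the
`z ∈ N` of REA. -/
def S_CNT : Prop := ∀ M : Set ZFSet.{0}, IsZF M → M.Countable → ∀ N : Set ZFSet.{0},
  {r : ℕ → Bool | ext M (Th M r) = N}.Countable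

/-- DM1 (80 lines, pure measure). If `U` has a quarter of every cylinder then it is conull: for all
finite disjoint unions of cylinders, then all clopen, then all open `O`: `mu O ≤ 4 mu (O ∩ U)` (an
open set is a countable disjoint union of cylinders, or an increasing union of clopen sets `O_n`,
unions of cylinders of level `n`); then for all measurable `A` by outer regularity. Take `A = Uᶜ`. -/
def S_DM1 : Prop := ∀ U : Set (ℕ → Bool), MeasurableSet U →
  (∀ r k, mu ℕ (cyl r k) ≤ 4 * mu ℕ (cyl r k ∩ U)) → mu ℕ Uᶜ = 0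

/-- DM2 (100 lines, pure measure). The maximal inequality: the bad set is a countable disjoint union of
cylinders `cyl r k`, `k ≥ s` minimal for `r`, which are contained in `cyl σ s` and satisfy
`mu (cyl r k) ≤ 2 mu (cyl r k ∩ U)`. (Sum over `k`: the set `A_k` of the `r ∈ cyl σ s` for which
`k` is minimal depends only on the first `k` bits, so `A_k` is a finite disjoint union of such
cylinders and `mu A_k ≤ 2 mu (A_k ∩ U)`.) -/
def S_DM2 : Prop := ∀ U : Set (ℕ → Bool), MeasurableSet U → ∀ (σ : ℕ → Bool) (s : ℕ),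
  mu ℕ {r | r ∈ cyl σ s ∧ ∃ k, s ≤ k ∧ mu ℕ (cyl r k) ≤ 2 * mu ℕ (cyl r k ∩ U)} ≤
    2 * mu ℕ (cyl σ s ∩ U)

/-- DM3 (70 lines, from BMS). Choose `n ≥ s` with `mu (lev T n) ≤ 2 mu (body T)` (continuity from
above). `lev T n` is the disjoint union of the cylinders `cyl r n` with `ini r n ∈ T`; so one of
them has `mu (cyl r n) ≤ 2 mu (cyl r n ∩ body T)`, and `body T ⊆ lev T m` for all `m`. -/
def S_DM3 : Prop := ∀ T, IsTree T → 0 < mu ℕ (body T) → ∀ s,
  ∃ r n, s ≤ n ∧ ini r n ∈ T ∧ ∀ m, n ≤ m → Half T r n m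

/-- BIG (130 lines, from WRD, BMS). `mu (cyl r k ∩ lev T m)` is `2 ^ (-m)` times the number of the
words of length `m` in `T` which extend `ini r k`. So `Half` holds iff the number of the words of
length `m` which extend `ini r k` and are not in `T` is at most the number of those in `T`, iff
there is an injection; this injection is a finite set of elements of `M`, so it is in `M`
(`insert_mem`, `empty_mem`). -/
def S_BIG : Prop := ∀ M : Set ZFSet.{0}, IsZF M → ∀ T r k m, k ≤ m →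
  (Half T r k m ↔ ∃ f ∈ M,
    (∀ x ∈ cyl r k, ini x m ∉ T → ∃ y ∈ cyl r k, ini y m ∈ T ∧ pair (ini x m) (ini y m) ∈ f) ∧
    ∀ a a' b, pair a b ∈ f → pair a' b ∈ f → a = a')

/-- TST (180 lines, from WRD, BIG). The tree of the words compatible with `σ` below `s` without bad
initial segment of length `≥ s` is in `M`, by separation from `Wd`: `z` is compatible is
`z ⊆ ini σ s ∨ ini σ s ⊆ z`, the initial segments of `z` are the `y ∈ Wd` with `y ⊆ z`; `Bad D r k`
with `y = ini r k` is: `∃ T ∈ D, ∀ m ∈ ω, k ⊆ m → ∃ f ∈ M, ...` of BIG, where `ini x m`, `x ∈ cyl r k`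
are the `x ∈ Wd` with `(x, m) ∈ Ln` and `y ⊆ x`. -/
def S_TST : Prop := ∀ M : Set ZFSet.{0}, IsZF M → ∀ D ∈ M, ∀ (σ : ℕ → Bool) (s : ℕ),
  ∃ T ∈ M, ∀ z, z ∈ T ↔
  ∃ r n, z = ini r n ∧ (∀ i, i < n → i < s → r i = σ i) ∧ ∀ k, s ≤ k → k ≤ n → ¬ Bad D r k

/-- DEN (100 lines, from BMS, DM1, DM2, DM3, TST). Let `U = ⋃_{T ∈ D} body T` (a countable union, `M`
is countable and transitive), suppose `mu Uᶜ > 0`. By DM1 there is a cylinder with
`4 mu (cyl σ s ∩ U) < mu (cyl σ s)`. By DM2 the set `B` of the `r ∈ cyl σ s` with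
`mu (cyl r k) ≤ 2 mu (cyl r k ∩ U)` for some `k ≥ s` has measure at most
`2 mu (cyl σ s ∩ U) < mu (cyl σ s)`. Let `T'` be the tree of TST. `Bad D r k` implies
`mu (cyl r k) ≤ 2 mu (cyl r k ∩ body T) ≤ 2 mu (cyl r k ∩ U)` (continuity from above), so
`cyl σ s \ B ⊆ body T'` has positive measure: `T' ∈ P M`. By density there is `T ∈ D`, `T ⊆ T'`.
DM3 for `T`: `ini r n ∈ T ⊆ T'`, `n ≥ s`, and `Bad D r n`: contradiction. (`Bad D r k` depends only on
`ini r k`.) -/
def S_DEN : Prop := ∀ M : Set ZFSet.{0}, IsZF M → M.Countable → ∀ D ∈ M, (∀ T ∈ D, T ∈ P M) →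
  (∀ S ∈ P M, ∃ T ∈ D, T ⊆ S) → ∀ᵐ r ∂(mu ℕ), ∃ T ∈ D, r ∈ body T

/-- GEN (70 lines, from WRD, BMS, DEN). For a.e. `r` (avoid countably many null sets: the null bodies
of the trees in `M`, and DEN for all `D ∈ M`). `nonempty`: the full tree `Wd`. `dir`: `S ∩ T ∈ M`
(`sep_mem`), its body is not null because it contains `r`. -/
def S_GEN : Prop := ∀ M : Set ZFSet.{0}, IsZF M → M.Countable → ∀ᵐ r ∂(mu ℕ), IsGen M (Th M r)

/-- BRF (80 lines, from BMS, GEN, CNT, EQV), the bridge. `N` = a measurable conull set of `r` with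
`IsGen M (Th M r)`; `Θ r` = `Th M r` for `r ∈ N` and `Th M r₀` otherwise (`r₀ ∈ N`). Measurable:
`{r | T ∈ Θ r}` is `N ∩ body T` or `(N ∩ body T) ∪ Nᶜ`. -/
def S_BRF : Prop := ∀ M : Set ZFSet.{0}, IsZF M → M.Countable →
  ∃ Θ : (ℕ → Bool) → Gen M, Measurable Θ ∧
    (∃ N : Set (ℕ → Bool), MeasurableSet N ∧ mu ℕ Nᶜ = 0 ∧
      ∀ G : Gen M, {r | r ∈ N ∧ GenRel M (Θ r) G}.Countable) ∧
    ∀ w, IteAut w → ∀ᵐ r ∂(mu ℕ), GenRel M (Θ (w r)) (Θ r)

end H46.RF
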