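import Pool.Agent.H46.RF.Stm

/-! Crew RF, part WRD. -/

set_option autoImplicit false

namespace H46.RF

open ZFSet (pair)
open Pool.Agent.W868
open MeasureTheory H14.ES

theorem bz_inj : Function.Injective bz := by
  intro a b h
  have h01 : nat 0 ≠ nat 1 := fun h => absurd (nat_injective h) (by norm_num)
  cases a <;> cases b <;> simp [bz, h01, h01.symm] at h ⊢

theorem mem_ini (r : ℕ → Bool) (n : ℕ) (z : ZFSet.{0}) :
    z ∈ ini r n ↔ ∃ k, k < n ∧ z = pair (nat k) (bz (r k)) := by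
  induction n with
  | zero => simp [ini]
  | succ n ih =>
    rw [ini, ZFSet.mem_insert_iff, ih]
    constructor
    · rintro (h | ⟨k, hk, h⟩)
      · exact ⟨n, Nat.lt_succ_self n, h⟩
      · exact ⟨k, hk.trans (Nat.lt_succ_self n), h⟩
    · rintro ⟨k, hk, h⟩
      rcases Nat.lt_succ_iff_lt_or_eq.1 hk with h' | rfl
      · exact Or.inr ⟨k, h', h⟩
      · exact Or.inl h

theorem pair_mem_ini (r : ℕ → Bool) (n k : ℕ) (y : ZFSet.{0}) :
    pair (nat k) y ∈ ini r n ↔ k < n ∧ y = bz (r k) := by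
  rw [mem_ini]
  constructor
  · rintro ⟨j, hj, h⟩
    obtain ⟨h1, h2⟩ := ZFSet.pair_inj.1 h
    obtain rfl := nat_injective h1
    exact ⟨hj, h2⟩
  · rintro ⟨h, rfl⟩
    exact ⟨k, h, rfl⟩

theorem ini_sub (r r' : ℕ → Bool) (n n' : ℕ) :
    ini r n ⊆ ini r' n' ↔ n ≤ n' ∧ ∀ i < n, r i = r' i := by
  constructor
  · intro h
    have h1 : ∀ i < n, i < n' ∧ r i = r' i := by
      intro i hi
      have h2 : pair (nat i) (bz (r i)) ∈ ini r' n' := h ((pair_mem_ini _ _ _ _).2 ⟨hi, rfl⟩)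
      obtain ⟨h3, h4⟩ := (pair_mem_ini _ _ _ _).1 h2
      exact ⟨h3, bz_inj h4⟩
    refine ⟨?_, fun i hi => (h1 i hi).2⟩
    by_contra hc
    exact absurd (h1 n' (not_le.1 hc)).1 (lt_irrefl _)
  · rintro ⟨h1, h2⟩ z hz
    obtain ⟨k, hk, rfl⟩ := (mem_ini _ _ _).1 hz
    exact (pair_mem_ini _ _ _ _).2 ⟨hk.trans_le h1, by rw [h2 k hk]⟩

theorem ini_eq (r r' : ℕ → Bool) (n n' : ℕ) :
    ini r n = ini r' n' ↔ n = n' ∧ ∀ i < n, r i = r' i := by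
  constructor
  · intro h
    have h1 := (ini_sub r r' n n').1 (by rw [h])
    have h2 := (ini_sub r' r n' n).1 (by rw [h])
    exact ⟨le_antisymm h1.1 h2.1, h1.2⟩
  · rintro ⟨rfl, h⟩
    ext z
    constructor
    · intro hz
      exact (ini_sub r r' n n).2 ⟨le_rfl, h⟩ hz
    · intro hz
      exact (ini_sub r' r n n).2 ⟨le_rfl, fun i hi => (h i hi).symm⟩ hz

theorem mem_nat_iff (n : ℕ) (z : ZFSet.{0}) : z ∈ nat n ↔ ∃ k, k < n ∧ z = nat k := by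
  induction n with
  | zero => simp [nat]
  | succ n ih =>
    rw [nat, ZFSet.mem_insert_iff, ih]
    constructor
    · rintro (h | ⟨k, hk, h⟩)
      · exact ⟨n, Nat.lt_succ_self n, h⟩
      · exact ⟨k, hk.trans (Nat.lt_succ_self n), h⟩
    · rintro ⟨k, hk, h⟩
      rcases Nat.lt_succ_iff_lt_or_eq.1 hk with h' | rfl
      · exact Or.inr ⟨k, h', h⟩
      · exact Or.inl h

theorem mem_two (b : ZFSet.{0}) : b ∈ ({nat 0, nat 1} : ZFSet.{0}) ↔ ∃ e, b = bz e := by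
  rw [ZFSet.mem_pair]
  constructor
  · rintro (h | h)
    · exact ⟨false, by simpa [bz] using h⟩
    · exact ⟨true, by simpa [bz] using h⟩
  · rintro ⟨e, rfl⟩
    cases e
    · left
      simp [bz]
    · right
      simp [bz]

theorem isFunc_ini (r : ℕ → Bool) (n : ℕ) :
    ZFSet.IsFunc (nat n) ({nat 0, nat 1} : ZFSet.{0}) (ini r n) := by
  constructor
  · intro z hz
    obtain ⟨k, hk, rfl⟩ := (mem_ini _ _ _).1 hz
    exact ZFSet.mem_prod.2 ⟨_, (mem_nat_iff _ _).2 ⟨k, hk, rfl⟩, _, (mem_two _).2 ⟨_, rfl⟩, rfl⟩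
  · intro z hz
    obtain ⟨k, hk, rfl⟩ := (mem_nat_iff _ _).1 hz
    exact ⟨bz (r k), (pair_mem_ini _ _ _ _).2 ⟨hk, rfl⟩, fun y hy => ((pair_mem_ini _ _ _ _).1 hy).2⟩

theorem exists_ini (n : ℕ) (z : ZFSet.{0})
    (h : ZFSet.IsFunc (nat n) ({nat 0, nat 1} : ZFSet.{0}) z) : ∃ r, z = ini r n := by
  classical
  refine ⟨fun k => decide (pair (nat k) (nat 1) ∈ z), ?_⟩
  have key : ∀ k, k < n → pair (nat k) (bz (decide (pair (nat k) (nat 1) ∈ z))) ∈ z := by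
    intro k hk
    by_cases h1 : pair (nat k) (nat 1) ∈ z
    · simpa [h1, bz] using h1
    · obtain ⟨b, hb, hu⟩ := h.2 (nat k) ((mem_nat_iff _ _).2 ⟨k, hk, rfl⟩)
      have hb' := (ZFSet.pair_mem_prod.1 (h.1 hb)).2
      obtain ⟨e, rfl⟩ := (mem_two _).1 hb'
      cases e
      · simpa [h1, bz] using hb
      · exact absurd (by simpa [bz] using hb) h1
  ext x
  rw [mem_ini]
  constructor
  · intro hx
    obtain ⟨a, ha, b, hb, rfl⟩ := ZFSet.mem_prod.1 (h.1 hx)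
    obtain ⟨k, hk, rfl⟩ := (mem_nat_iff _ _).1 ha
    refine ⟨k, hk, ?_⟩
    obtain ⟨b', hb', hu⟩ := h.2 (nat k) ha
    rw [hu b hx, ← hu _ (key k hk)]
  · rintro ⟨k, hk, rfl⟩
    exact key k hk

theorem ini_mem {M : Set ZFSet.{0}} (hM : IsZF M) (r : ℕ → Bool) (n : ℕ) : ini r n ∈ M := by
  have hb : ∀ b, bz b ∈ M := by
    intro b
    cases b
    · simpa [bz] using hM.nat_mem 0
    · simpa [bz] using hM.nat_mem 1
  induction n with
  | zero => exact hM.empty_mem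
  | succ n ih => exact hM.insert_mem (hM.pair_mem (hM.nat_mem n) (hb _)) ih

theorem two_mem {M : Set ZFSet.{0}} (hM : IsZF M) : ({nat 0, nat 1} : ZFSet.{0}) ∈ M :=
  hM.pairing _ (hM.nat_mem 0) _ (hM.nat_mem 1)

theorem exists_Wd {M : Set ZFSet.{0}} (hM : IsZF M) :
    ∃ Wd ∈ M, ∀ z, z ∈ Wd ↔ ∃ r n, z = ini r n := by
  have hB := hM.base
  obtain ⟨Q, hQ, hQ'⟩ := hM.exists_pow (hM.prod_mem hM.infinity (two_mem hM))
  have h1 : Dfn M M fun w : Fin 1 → ZFSet.{0} => ∃ n ∈ ZFSet.omega,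
      ZFSet.IsFunc n ({nat 0, nat 1} : ZFSet.{0}) (w 0) := by
    apply hB.bex (DfnF.const hM.infinity)
    exact hB.isFunc' (DfnF.proj _) (DfnF.const (two_mem hM)) (DfnF.proj (1 : Fin 2))
  refine ⟨_, hM.sep_mem (Q := fun z => ∃ n ∈ ZFSet.omega,
    ZFSet.IsFunc n ({nat 0, nat 1} : ZFSet.{0}) z) h1 hQ, fun z => ?_⟩
  rw [ZFSet.mem_sep]
  constructor
  · rintro ⟨-, n, hn, h⟩
    obtain ⟨n, rfl⟩ := mem_omega_iff.1 hn
    obtain ⟨r, h⟩ := exists_ini n z h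
    exact ⟨r, n, h⟩
  · rintro ⟨r, n, rfl⟩
    refine ⟨(hQ' _).2 ⟨ini_mem hM r n, fun z hz => ?_⟩, nat n, mem_omega_iff.2 ⟨n, rfl⟩,
      isFunc_ini r n⟩
    obtain ⟨k, -, rfl⟩ := (mem_ini _ _ _).1 hz
    exact ZFSet.pair_mem_prod.2 ⟨mem_omega_iff.2 ⟨k, rfl⟩, (mem_two _).2 ⟨_, rfl⟩⟩

theorem exists_Ln {M : Set ZFSet.{0}} (hM : IsZF M) :
    ∃ Ln ∈ M, ∀ z, z ∈ Ln ↔ ∃ r n, z = pair (ini r n) (nat n) := by
  have hB := hM.base
  obtain ⟨Wd, hW, hW'⟩ := exists_Wd hM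
  have h1 : Dfn M M fun w : Fin 2 → ZFSet.{0} =>
      ZFSet.IsFunc (w 1) ({nat 0, nat 1} : ZFSet.{0}) (w 0) :=
    hB.isFunc' (DfnF.proj _) (DfnF.const (two_mem hM)) (DfnF.proj _)
  obtain ⟨f, hf, hs, h2⟩ := hM.rel_mem hW hM.infinity
    (Q := fun a b => ZFSet.IsFunc b ({nat 0, nat 1} : ZFSet.{0}) a) h1
  refine ⟨f, hf, fun z => ?_⟩
  constructor
  · intro hz
    obtain ⟨a, ha, b, hb, rfl⟩ := ZFSet.mem_prod.1 (hs hz)
    obtain ⟨-, -, h3⟩ := (h2 a b).1 hz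
    obtain ⟨n, rfl⟩ := mem_omega_iff.1 hb
    obtain ⟨r, rfl⟩ := exists_ini n a h3
    exact ⟨r, n, rfl⟩
  · rintro ⟨r, n, rfl⟩
    exact (h2 _ _).2 ⟨(hW' _).2 ⟨r, n, rfl⟩, mem_omega_iff.2 ⟨n, rfl⟩, isFunc_ini r n⟩

theorem wrd : S_WRD := by
  refine ⟨pair_mem_ini', fun r n z => (mem_ini r n z).1, ini_eq', ini_sub', bz_inj, ?_⟩
  intro M hM
  refine ⟨ini_mem hM, ?_, exists_Wd hM, exists_Ln hM⟩
  intro b
  cases b
  · simpa [bz] using hM.nat_mem 0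
  · simpa [bz] using hM.nat_mem 1
where
  pair_mem_ini' : ∀ r n k y, pair (nat k) y ∈ ini r n ↔ k < n ∧ y = bz (r k) :=
    fun r n k y => pair_mem_ini r n k y
  ini_eq' : ∀ r r' n n', ini r n = ini r' n' ↔ n = n' ∧ ∀ i < n, r i = r' i :=
    fun r r' n n' => ini_eq r r' n n'
  ini_sub' : ∀ r r' n n', ini r n ⊆ ini r' n' ↔ n ≤ n' ∧ ∀ i < n, r i = r' i :=
    fun r r' n n' => ini_sub r r' n n'

end H46.RF
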