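import Pool.Agent.H46.RF.WRD

/-! Crew RF, part PRB. -/

set_option autoImplicit false

namespace H46.RF

open ZFSet (pair)
open Pool.Agent.W868
open MeasureTheory H14.ES

theorem isTree_down {T : ZFSet.{0}} (hT : IsTree T) (r : ℕ → Bool) (n : ℕ) (h : ini r n ∈ T) :
    ∀ m, m ≤ n → ini r m ∈ T := by
  induction n with
  | zero =>
    intro m hm
    obtain rfl : m = 0 := by omega
    exact h
  | succ n ih =>
    intro m hm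
    rcases Nat.le_succ_iff.1 hm with h' | rfl
    · exact ih (hT.down r n h) m h'
    · exact h

theorem isTree_iff {T Wd : ZFSet.{0}} (hW : ∀ z, z ∈ Wd ↔ ∃ r n, z = ini r n) :
    IsTree T ↔ T ⊆ Wd ∧ ∀ a ∈ T, ∀ b ∈ Wd, b ⊆ a → b ∈ T := by
  constructor
  · intro hT
    refine ⟨fun z hz => (hW z).2 (hT.word z hz), ?_⟩
    intro a ha b hb hba
    obtain ⟨r, n, rfl⟩ := hT.word a ha
    obtain ⟨r', n', rfl⟩ := (hW b).1 hb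
    obtain ⟨h1, h2⟩ := (ini_sub _ _ _ _).1 hba
    have h3 : ini r' n' = ini r n' := (ini_eq _ _ _ _).2 ⟨rfl, h2⟩
    rw [h3]
    exact isTree_down hT r n ha n' h1
  · rintro ⟨h1, h2⟩
    refine ⟨fun z hz => (hW z).1 (h1 hz), fun r n hn => ?_⟩
    exact h2 _ hn _ ((hW _).2 ⟨r, n, rfl⟩) ((ini_sub _ _ _ _).2 ⟨by omega, fun i _ => rfl⟩)

/-- `y` is the value of `z` below `k` -/
def VRel (gc gu gv z k y : ZFSet.{0}) : Prop :=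
  ∀ j ∈ k, ∃ a ∈ ZFSet.omega, ∃ b ∈ ZFSet.omega, ∃ d ∈ ZFSet.omega,
    pair j a ∈ gc ∧ pair j b ∈ gu ∧ pair j d ∈ gv ∧
    (∃ e ∈ ({nat 0, nat 1} : ZFSet.{0}), pair a e ∈ z) ∧
    (∃ e ∈ ({nat 0, nat 1} : ZFSet.{0}), pair b e ∈ z) ∧
    (∃ e ∈ ({nat 0, nat 1} : ZFSet.{0}), pair d e ∈ z) ∧
    (pair a (nat 1) ∈ z → ∀ e ∈ ({nat 0, nat 1} : ZFSet.{0}), (pair j e ∈ y ↔ pair b e ∈ z)) ∧
    (pair a (nat 0) ∈ z → ∀ e ∈ ({nat 0, nat 1} : ZFSet.{0}), (pair j e ∈ y ↔ pair d e ∈ z))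

theorem gr_iff {g : ZFSet.{0}} {f : ℕ → ℕ} (h : ∀ z, z ∈ g ↔ ∃ n, z = pair (nat n) (nat (f n)))
    (j a : ℕ) : pair (nat j) (nat a) ∈ g ↔ a = f j := by
  rw [h]
  constructor
  · rintro ⟨n, hn⟩
    obtain ⟨h1, h2⟩ := ZFSet.pair_inj.1 hn
    rw [nat_injective h1, nat_injective h2]
  · rintro rfl
    exact ⟨j, rfl⟩

theorem vrel_iff {gc gu gv : ZFSet.{0}} {c u v : ℕ → ℕ}
    (hc : ∀ z, z ∈ gc ↔ ∃ n, z = pair (nat n) (nat (c n)))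
    (hu : ∀ z, z ∈ gu ↔ ∃ n, z = pair (nat n) (nat (u n)))
    (hv : ∀ z, z ∈ gv ↔ ∃ n, z = pair (nat n) (nat (v n)))
    (r s : ℕ → Bool) (n k : ℕ) :
    VRel gc gu gv (ini r n) (nat k) (ini s k) ↔
      (∀ j < k, c j < n ∧ u j < n ∧ v j < n) ∧ ini s k = ini (itm c u v r) k := by
  have hex : ∀ a : ℕ, (∃ e ∈ ({nat 0, nat 1} : ZFSet.{0}), pair (nat a) e ∈ ini r n) ↔ a < n := by
    intro a
    constructor
    · rintro ⟨e, -, he⟩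
      exact ((pair_mem_ini _ _ _ _).1 he).1
    · intro ha
      exact ⟨bz (r a), (mem_two _).2 ⟨_, rfl⟩, (pair_mem_ini _ _ _ _).2 ⟨ha, rfl⟩⟩
  have hb1 : nat 1 = bz true := by simp [bz]
  have hb0 : nat 0 = bz false := by simp [bz]
  have hone : ∀ a : ℕ, a < n → (pair (nat a) (nat 1) ∈ ini r n ↔ r a = true) := by
    intro a ha
    rw [pair_mem_ini, hb1]
    exact ⟨fun h => (bz_inj h.2).symm, fun h => ⟨ha, by rw [h]⟩⟩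
  have hzero : ∀ a : ℕ, a < n → (pair (nat a) (nat 0) ∈ ini r n ↔ r a = false) := by
    intro a ha
    rw [pair_mem_ini, hb0]
    exact ⟨fun h => (bz_inj h.2).symm, fun h => ⟨ha, by rw [h]⟩⟩
  have hall : ∀ j b : ℕ, j < k → b < n → ((∀ e ∈ ({nat 0, nat 1} : ZFSet.{0}),
      (pair (nat j) e ∈ ini s k ↔ pair (nat b) e ∈ ini r n)) ↔ s j = r b) := by
    intro j b hj hb
    constructor
    · intro h
      have h1 := (h (bz (s j)) ((mem_two _).2 ⟨_, rfl⟩)).1 ((pair_mem_ini _ _ _ _).2 ⟨hj, rfl⟩)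
      exact bz_inj ((pair_mem_ini _ _ _ _).1 h1).2
    · intro h e he
      rw [pair_mem_ini, pair_mem_ini, h]
      exact ⟨fun h => ⟨hb, h.2⟩, fun h => ⟨hj, h.2⟩⟩
  constructor
  · intro h
    have h1 : ∀ j < k, (c j < n ∧ u j < n ∧ v j < n) ∧ s j = itm c u v r j := by
      intro j hj
      obtain ⟨a, ha, b, hb, d, hd, h1, h2, h3, h4, h5, h6, h7, h8⟩ :=
        h (nat j) ((mem_nat_iff _ _).2 ⟨j, hj, rfl⟩)
      obtain ⟨a, rfl⟩ := mem_omega_iff.1 ha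
      obtain ⟨b, rfl⟩ := mem_omega_iff.1 hb
      obtain ⟨d, rfl⟩ := mem_omega_iff.1 hd
      obtain rfl := (gr_iff hc _ _).1 h1
      obtain rfl := (gr_iff hu _ _).1 h2
      obtain rfl := (gr_iff hv _ _).1 h3
      rw [hex] at h4 h5 h6
      rw [hone _ h4, hall _ _ hj h5] at h7
      rw [hzero _ h4, hall _ _ hj h6] at h8
      refine ⟨⟨h4, h5, h6⟩, ?_⟩
      unfold itm
      cases hr : r (c j)
      · simpa using h8 hr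
      · simpa using h7 hr
    exact ⟨fun j hj => (h1 j hj).1, (ini_eq _ _ _ _).2 ⟨rfl, fun j hj => (h1 j hj).2⟩⟩
  · rintro ⟨h1, h2⟩ j' hj'
    obtain ⟨j, hj, rfl⟩ := (mem_nat_iff _ _).1 hj'
    obtain ⟨h3, h4, h5⟩ := h1 j hj
    have h6 := ((ini_eq _ _ _ _).1 h2).2 j hj
    refine ⟨nat (c j), mem_omega_iff.2 ⟨_, rfl⟩, nat (u j), mem_omega_iff.2 ⟨_, rfl⟩,
      nat (v j), mem_omega_iff.2 ⟨_, rfl⟩, (gr_iff hc _ _).2 rfl, (gr_iff hu _ _).2 rfl,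
      (gr_iff hv _ _).2 rfl, (hex _).2 h3, (hex _).2 h4, (hex _).2 h5, ?_, ?_⟩
    · rw [hone _ h3, hall _ _ hj h4]
      intro hr
      rw [h6]
      unfold itm
      simp [hr]
    · rw [hzero _ h3, hall _ _ hj h5]
      intro hr
      rw [h6]
      unfold itm
      simp [hr]

theorem prb : S_PRB := by
  intro M hM c u v ⟨gc, hgc, hc⟩ ⟨gu, hgu, hu⟩ ⟨gv, hgv, hv⟩
  have hB := hM.base
  obtain ⟨Wd, hWM, hW⟩ := exists_Wd hM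
  obtain ⟨Ln, hLM, hL⟩ := exists_Ln hM
  have hom := hM.infinity
  have htwo := two_mem hM
  have hn0 := hM.nat_mem 0
  have hn1 := hM.nat_mem 1
  let Q : ZFSet.{0} → ZFSet.{0} → Prop := fun z T =>
    (T ⊆ Wd ∧ ∀ a ∈ T, ∀ b ∈ Wd, b ⊆ a → b ∈ T) ∧
      ∀ k ∈ ZFSet.omega, ∀ y ∈ Wd, (pair y k ∈ Ln ∧ VRel gc gu gv z k y) → y ∈ T
  have hD : Dfn M M fun w : Fin (1 + 1) → ZFSet.{0} => Q (w 0) ((Fin.tail w) 0) := by
    have h1 : Dfn M M fun w : Fin (1 + 1) → ZFSet.{0} =>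
      (w 1 ⊆ Wd ∧ ∀ a ∈ w 1, ∀ b ∈ Wd, b ⊆ a → b ∈ w 1) ∧
      ∀ k ∈ ZFSet.omega, ∀ y ∈ Wd, (pair y k ∈ Ln ∧
        ∀ j ∈ k, ∃ a ∈ ZFSet.omega, ∃ b ∈ ZFSet.omega, ∃ d ∈ ZFSet.omega,
    pair j a ∈ gc ∧ pair j b ∈ gu ∧ pair j d ∈ gv ∧
    (∃ e ∈ ({nat 0, nat 1} : ZFSet.{0}), pair a e ∈ w 0) ∧
    (∃ e ∈ ({nat 0, nat 1} : ZFSet.{0}), pair b e ∈ w 0) ∧
    (∃ e ∈ ({nat 0, nat 1} : ZFSet.{0}), pair d e ∈ w 0) ∧
    (pair a (nat 1) ∈ w 0 → ∀ e ∈ ({nat 0, nat 1} : ZFSet.{0}), (pair j e ∈ y ↔ pair b e ∈ w 0)) ∧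
    (pair a (nat 0) ∈ w 0 → ∀ e ∈ ({nat 0, nat 1} : ZFSet.{0}), (pair j e ∈ y ↔ pair d e ∈ w 0))) →
      y ∈ w 1 := by
      (repeat' first
        | assumption
        | exact DfnF.proj _
        | exact DfnF.const (by assumption)
        | exact Dfn.prop _
        | apply Dfn.not | apply Dfn.and | apply Dfn.or | apply Dfn.imp | apply Dfn.iff
        | apply hB.subset'
        | apply hB.bex | apply hB.ball | apply Dfn.ex | apply Dfn.all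
        | apply Dfn.eq | apply Dfn.mem | apply hB.pair')
    exact h1
  refine ⟨fun T => ZFSet.sep (fun z => Q z T) Wd, ?_, ?_⟩
  · exact hM.sep' (F := fun _ : Fin 1 → ZFSet.{0} => Wd) (DfnF.const hWM)
      (Q := fun z v => Q z (v 0)) hD
  · intro T hT z
    rw [ZFSet.mem_sep]
    change (z ∈ Wd ∧ (T ⊆ Wd ∧ ∀ a ∈ T, ∀ b ∈ Wd, b ⊆ a → b ∈ T) ∧
      ∀ k ∈ ZFSet.omega, ∀ y ∈ Wd, (pair y k ∈ Ln ∧ VRel gc gu gv z k y) → y ∈ T) ↔ _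
    rw [← isTree_iff hW]
    constructor
    · rintro ⟨hz, hT', h⟩
      refine ⟨hT', ?_⟩
      obtain ⟨r, n, rfl⟩ := (hW z).1 hz
      refine ⟨r, n, rfl, fun k hk => ?_⟩
      refine h (nat k) (mem_omega_iff.2 ⟨k, rfl⟩) _ ((hW _).2 ⟨_, _, rfl⟩)
        ⟨(hL _).2 ⟨_, _, rfl⟩, ?_⟩
      exact (vrel_iff hc hu hv r _ n k).2 ⟨hk, rfl⟩
    · rintro ⟨hT', r, n, rfl, h⟩
      refine ⟨(hW _).2 ⟨_, _, rfl⟩, hT', ?_⟩
      rintro k hk y hy ⟨h1, h2⟩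
      obtain ⟨s, m, hs⟩ := (hL _).1 h1
      obtain ⟨rfl, rfl⟩ := ZFSet.pair_inj.1 hs
      obtain ⟨h3, h4⟩ := (vrel_iff hc hu hv r s n m).1 h2
      rw [h4]
      exact h m h3

end H46.RF
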