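import Pool.Graph.R_seed8.W868.Im
import Pool.Graph.R_seed8.W868.Rec
import Pool.Graph.R_seed8.W868.Nat
import Pool.Agent.H14.ES.Defs

/-!
Random forcing over a countable transitive model: definitions (crew RF, block II of `MP_9214e0_lc`).
-/

set_option autoImplicit false

namespace H46.RF

open ZFSet (pair)
open Pool.Agent.W868
open MeasureTheory H14.ES

/-! ### Words, trees, random forcing -/

/-- the bits `0`, `1` as sets -/
noncomputable def bz (b : Bool) : ZFSet.{0} := if b then nat 1 else nat 0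

/-- the initial segment of length `n` of `r : 2^ω`, as a finite function (a set of pairs) -/
noncomputable def ini (r : ℕ → Bool) : ℕ → ZFSet.{0}
  | 0 => ∅
  | n + 1 => insert (pair (nat n) (bz (r n))) (ini r n)

/-- `T` is a tree of finite binary words -/
structure IsTree (T : ZFSet.{0}) : Prop where
  word : ∀ z ∈ T, ∃ r n, z = ini r n
  down : ∀ r n, ini r (n + 1) ∈ T → ini r n ∈ T

/-- the set of the branches of `T` -/
def body (T : ZFSet.{0}) : Set (ℕ → Bool) := {r | ∀ n, ini r n ∈ T}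

/-- Random forcing of `M`: the trees of finite binary words which are in `M` and whose (closed)
set of branches has positive measure, ordered by inclusion. -/
def P (M : Set ZFSet.{0}) : Set ZFSet.{0} := {T | T ∈ M ∧ IsTree T ∧ 0 < mu ℕ (body T)}

/-- `G` is an `M`-generic filter -/
structure IsGen (M : Set ZFSet.{0}) (G : Set ZFSet.{0}) : Prop where
  sub : G ⊆ P M
  nonempty : G.Nonempty
  up : ∀ S ∈ G, ∀ T ∈ P M, S ⊆ T → T ∈ G
  dir : ∀ S ∈ G, ∀ T ∈ G, ∃ U ∈ G, U ⊆ S ∧ U ⊆ T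
  meet : ∀ D ∈ M, (∀ T ∈ D, T ∈ P M) → (∀ S ∈ P M, ∃ T ∈ D, T ⊆ S) → ∃ T ∈ D, T ∈ G

instance small_pairs (x : ZFSet.{0}) (T : ZFSet.{0} × ZFSet.{0} → Prop) :
    Small.{0} {t : ZFSet.{0} × ZFSet.{0} // pair t.1 t.2 ∈ x ∧ T t} :=
  small_of_injective (β := {y // y ∈ x}) (f := fun t => ⟨pair t.1.1 t.1.2, t.2.1⟩)
    fun t t' h => by
      have h1 := ZFSet.pair_inj.1 (congrArg Subtype.val h)
      exact Subtype.ext (Prod.ext h1.1 h1.2)

theorem rank_lt_of_pair_mem {y p x : ZFSet.{0}} (h : pair y p ∈ x) : y.rank < x.rank := by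
  have h1 : y.rank < ({y} : ZFSet.{0}).rank := ZFSet.rank_lt_of_mem (by simp)
  have h2 : ({y} : ZFSet.{0}).rank < (pair y p).rank := ZFSet.rank_lt_of_mem (by simp [pair])
  exact h1.trans (h2.trans (ZFSet.rank_lt_of_mem h))

/-- The value of a name: `ev G x = {ev G y | there is p ∈ G with (y, p) ∈ x}`. -/
noncomputable def ev (G : Set ZFSet.{0}) (x : ZFSet.{0}) : ZFSet.{0} :=
  ZFSet.range fun t : {t : ZFSet.{0} × ZFSet.{0} // pair t.1 t.2 ∈ x ∧ t.2 ∈ G} => ev G t.1.1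
termination_by x.rank
decreasing_by exact rank_lt_of_pair_mem t.2.1

theorem mem_ev {G : Set ZFSet.{0}} {x z : ZFSet.{0}} :
    z ∈ ev G x ↔ ∃ y p, pair y p ∈ x ∧ p ∈ G ∧ ev G y = z := by
  rw [ev, ZFSet.mem_range]
  constructor
  · rintro ⟨⟨⟨y, p⟩, h1, h2⟩, rfl⟩
    exact ⟨y, p, h1, h2, rfl⟩
  · rintro ⟨y, p, h1, h2, rfl⟩
    exact ⟨⟨(y, p), h1, h2⟩, rfl⟩

/-- The generic extension `M[G]`: the values of the names in `M` (every set counts as a name, as in
Shoenfield's account of forcing). -/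
noncomputable def ext (M : Set ZFSet.{0}) (G : Set ZFSet.{0}) : Set ZFSet.{0} := ev G '' M

/-- the space of the `M`-generic filters of random forcing, as a subspace of `2 ^ P` -/
def Gen (M : Set ZFSet.{0}) : Type 1 := {G : Set (P M) // IsGen M ((↑) '' G)}

/-- its Borel structure -/
instance (M : Set ZFSet.{0}) : MeasurableSpace (Gen M) :=
  inferInstanceAs (MeasurableSpace {G : Set (P M) // IsGen M ((↑) '' G)})

/-- `G ≡ H` iff `M[G] = M[H]` -/
def GenRel (M : Set ZFSet.{0}) (G H : Gen M) : Prop :=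
  ext M ((↑) '' G.1) = ext M ((↑) '' H.1)

/-! ### The filter of a real -/

/-- the conditions which contain `r` -/
def Th (M : Set ZFSet.{0}) (r : ℕ → Bool) : Set ZFSet.{0} := {T | T ∈ P M ∧ r ∈ body T}

/-- the graph of `f` is in `M` -/
def GrIn (M : Set ZFSet.{0}) (f : ℕ → ℕ) : Prop :=
  ∃ g ∈ M, ∀ z, z ∈ g ↔ ∃ n, z = pair (nat n) (nat (f n))

/-- the graph of `f` is in `M` -/
def Gr2 (M : Set ZFSet.{0}) (f : ℕ → ℕ → ℕ) : Prop :=
  ∃ g ∈ M, ∀ z, z ∈ g ↔ ∃ m n, z = pair (pair (nat m) (nat n)) (nat (f m n))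

/-- the graph of `f` is in `M` -/
def Gr3 (M : Set ZFSet.{0}) (f : ℕ → ℕ → ℕ → ℕ) : Prop :=
  ∃ g ∈ M, ∀ z, z ∈ g ↔
    ∃ m n k, z = pair (pair (nat m) (pair (nat n) (nat k))) (nat (f m n k))

/-- the maps `r ↦ (j ↦ if r (c j) then r (u j) else r (v j))` -/
def itm (c u v : ℕ → ℕ) (r : ℕ → Bool) : ℕ → Bool := fun j => if r (c j) then r (u j) else r (v j)

/-- bijections of `2 ^ ℕ` of this form with primitive recursive `c`, `u`, `v`, whose inverse is of the
same form -/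
def IteAut (w : (ℕ → Bool) → (ℕ → Bool)) : Prop :=
  MeasurePreserving w (mu ℕ) (mu ℕ) ∧
  ∃ c u v c' u' v' : ℕ → ℕ, Nat.Primrec c ∧ Nat.Primrec u ∧ Nat.Primrec v ∧
    Nat.Primrec c' ∧ Nat.Primrec u' ∧ Nat.Primrec v' ∧ w = itm c u v ∧
    (∀ r, itm c' u' v' (w r) = r) ∧ (∀ r, w (itm c' u' v' r) = r)

/-- the cylinder -/
def cyl (r : ℕ → Bool) (k : ℕ) : Set (ℕ → Bool) := {x | ∀ i < k, x i = r i}

/-- level `m` of `T`, a clopen set -/
def lev (T : ZFSet.{0}) (m : ℕ) : Set (ℕ → Bool) := {x | ini x m ∈ T}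

/-- `lev T m` is at least one half of `cyl r k` -/
def Half (T : ZFSet.{0}) (r : ℕ → Bool) (k m : ℕ) : Prop :=
  mu ℕ (cyl r k) ≤ 2 * mu ℕ (cyl r k ∩ lev T m)

/-- some body of a tree in `D` is at least one half of `cyl r k` -/
def Bad (D : ZFSet.{0}) (r : ℕ → Bool) (k : ℕ) : Prop :=
  ∃ T ∈ D, ∀ m, k ≤ m → Half T r k m

end H46.RF
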