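import Pool.Agent.H46.RF.PRB
import Pool.Agent.H16.RF.DM
import Pool.Agent.H2.RF.PRA
import Pool.Agent.H24.RF.TRN
import Pool.Agent.H33.RF.CHK
import Pool.Agent.H33.RF.DEN
import Pool.Agent.H61.RF.DM1
import Pool.Agent.H65.RF.BRF
import Pool.Agent.H65.RF.CNT
import Pool.Agent.H65.RF.GEN
import Pool.Agent.H81.RF.PR
import Pool.Agent.H85.RF.EQV
import Pool.Agent.H85.RF.PRE
import Pool.Agent.H87.RF.PR1
import Pool.Agent.H94.RF.REA
import Pool.Agent.H98.RF.BIG
import Pool.Agent.H98.RF.TST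

/-! Crew RF: assembly of block II (tree version). -/

set_option autoImplicit false

namespace H46.RF

theorem all_tst : S_TST := H98.RF.tst wrd (H98.RF.big wrd H16.RF.bms)

theorem all_den : S_DEN := H33.RF.den wrd H16.RF.bms H61.RF.t_DM1 H16.RF.dm2 H16.RF.dm3 all_tst

theorem all_gen : S_GEN := H65.RF.gen wrd H16.RF.bms all_den

theorem all_pr3 : S_PR3 := H81.RF.pr3 H87.RF.pr1 (H81.RF.pr2 H87.RF.pr1)

theorem all_eqv : S_EQV :=
  H85.RF.eqv all_pr3 H24.RF.trn (H85.RF.pre (H2.RF.pra wrd) prb H16.RF.bms)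

theorem all_cnt : S_CNT := H65.RF.cnt (H94.RF.rea H33.RF.chk H16.RF.bms)

theorem all_brf : S_BRF := H65.RF.brf H16.RF.bms all_gen all_cnt all_eqv

end H46.RF
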